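import Pool.Agent.W297.WS.Defs

/-!
# Chord separated families: every member has removable elements
-/

set_option autoImplicit false
open Classical

namespace Pool.Agent.W297.WS

theorem CS.symm {A B : Finset ℕ} (h : CS A B) : CS B A := by
  rintro ⟨a, b, c, d, hab, hbc, hcd, h1⟩
  exact h ⟨a, b, c, d, hab, hbc, hcd, h1.symm⟩

theorem CS.refl (A : Finset ℕ) : CS A A := by
  rintro ⟨a, b, c, d, hab, hbc, hcd, h1⟩
  simp at h1

theorem CS.no {A B : Finset ℕ} (h : CS A B) {a b c d : ℕ} (hab : a < b) (hbc : b < c)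
    (hcd : c < d) (ha : a ∈ A) (ha' : a ∉ B) (hb : b ∈ B) (hb' : b ∉ A) (hc : c ∈ A)
    (hc' : c ∉ B) (hd : d ∈ B) (hd' : d ∉ A) : False :=
  h ⟨a, b, c, d, hab, hbc, hcd, Or.inl ⟨by simp [*], by simp [*], by simp [*], by simp [*]⟩⟩

/-- The chain lemma. -/
theorem chain (J : ℕ → Finset ℕ) (l y : ℕ → ℕ) (m : ℕ)
    (hCS : ∀ i j, i ≤ m → j ≤ m → CS (J i) (J j))
    (h1 : ∀ i, i < m → l (i + 1) ∈ J i) (h2 : ∀ i, i < m → l (i + 1) ∉ J (i + 1))
    (h3 : ∀ i, i < m → y (i + 1) ∉ J i) (h4 : ∀ i, i < m → y (i + 1) ∈ J (i + 1))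
    (h5 : ∀ i, i < m → l (i + 1) < y (i + 1))
    (h6 : ∀ i j, 0 < i → i < j → j ≤ m → l i < l j)
    (h7 : ∀ i j, 0 < i → i < j → j ≤ m → y i < y j) :
    ∀ k a b : ℕ, b = a + k + 1 → b ≤ m → ∀ e' e : ℕ, e' ∉ J a →
      (∀ i, a < i → i ≤ b → e' ∈ J i) → (∀ i, a ≤ i → i < b → e ∈ J i) → e ∉ J b →
      e' < l (a + 1) → y b < e → False := by
  intro k
  induction k using Nat.strong_induction_on with
  | _ k ih =>
    intro a b hb hbm e' e he'a he'i hei heb hl hy
    -- facts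
    have hab : a < b := by omega
    have ham : a < m := by omega
    obtain ⟨c, rfl⟩ : ∃ c, b = c + 1 := ⟨a + k, by omega⟩
    have hcm : c < m := by omega
    have hac : a ≤ c := by omega
    by_cases hA : l (a + 1) ∈ J (c + 1)
    · -- largest `s ≤ c` with `l (a+1) ∉ J s`, `s ≥ a + 1`
      have hex : ∃ s, a + 1 ≤ s ∧ s ≤ c ∧ l (a + 1) ∉ J s ∧
          ∀ i, s < i → i ≤ c + 1 → l (a + 1) ∈ J i := by
        have hac' : a + 1 ≤ c := by
          by_contra hcon
          have : a = c := by omega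
          subst this
          exact h2 a ham hA
        -- take the greatest
        let P : ℕ → Prop := fun s => l (a + 1) ∉ J s
        have hP : P (a + 1) := h2 a ham
        refine ⟨Nat.findGreatest P c, Nat.le_findGreatest hac' hP, Nat.findGreatest_le c, ?_, ?_⟩
        · exact Nat.findGreatest_spec (P := P) hac' hP
        · intro i hi hic
          by_contra hcon
          rcases Nat.lt_or_ge c i with h | h
          · have : i = c + 1 := by omega
            subst this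
            exact hcon hA
          · have h9 : i ≤ Nat.findGreatest P c := Nat.le_findGreatest h hcon
            omega
      obtain ⟨s, hs1, hs2, hs3, hs4⟩ := hex
      refine ih (c - s) (by omega) s (c + 1) (by omega) hbm (l (a + 1)) e hs3 hs4 ?_ heb ?_ hy
      · intro i hi1 hi2
        exact hei i (by omega) hi2
      · exact h6 (a + 1) (s + 1) (by omega) (by omega) (by omega)
    · by_cases hB : y (c + 1) ∈ J a
      · have hac' : a + 1 ≤ c := by
          by_contra hcon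
          have : a = c := by omega
          subst this
          exact h3 a ham hB
        -- smallest `s > a` with `y (c+1) ∉ J s`
        have hex : ∃ s, a < s ∧ y (c + 1) ∉ J s := ⟨c, by omega, h3 c hcm⟩
        have hs := Nat.find_spec hex
        have hsc : Nat.find hex ≤ c := Nat.find_min' hex ⟨by omega, h3 c hcm⟩
        have hmin : ∀ i, a < i → i < Nat.find hex → y (c + 1) ∈ J i := by
          intro i hi1 hi2
          by_contra hcon
          exact Nat.find_min hex hi2 ⟨hi1, hcon⟩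
        generalize Nat.find hex = s at hs hsc hmin
        refine ih (s - a - 1) (by omega) a s (by omega) (by omega) e' (y (c + 1)) he'a
          (fun i h h' => he'i i h (by omega)) ?_ hs.2 hl ?_
        · intro i hi1 hi2
          rcases Nat.lt_or_ge a i with h | h
          · exact hmin i h hi2
          · have : i = a := by omega
            subst this
            exact hB
        · exact h7 s (c + 1) (by omega) (by omega) (by omega)
      · have hly : l (a + 1) < y (c + 1) := by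
          rcases Nat.lt_or_ge a c with h | h
          · exact (h5 a ham).trans (h7 (a + 1) (c + 1) (by omega) (by omega) (by omega))
          · have : a = c := by omega
            subst this
            exact h5 a ham
        exact (hCS (c + 1) a hbm (by omega)).no hl hly hy
          (he'i (c + 1) hab le_rfl) he'a (h1 a ham) hA (h4 c hcm) hB
          (hei a le_rfl hab) heb

/-- `J` blocks the removal of `y` from `T` -/
def Bk (T J : Finset ℕ) (y : ℕ) : Prop :=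
  y ∈ T ∧ y ∈ J ∧
  ((∃ a c d, a < y ∧ y < c ∧ c < d ∧ (a ∈ T ∧ a ∉ J) ∧ (c ∈ T ∧ c ∉ J) ∧ (d ∈ J ∧ d ∉ T)) ∨
   (∃ a b c, a < b ∧ b < c ∧ c < y ∧ (a ∈ T ∧ a ∉ J) ∧ (b ∈ J ∧ b ∉ T) ∧ (c ∈ T ∧ c ∉ J)) ∨
   (∃ b c d, y < b ∧ b < c ∧ c < d ∧ (b ∈ T ∧ b ∉ J) ∧ (c ∈ J ∧ c ∉ T) ∧ (d ∈ T ∧ d ∉ J)) ∨
   (∃ a b d, a < b ∧ b < y ∧ y < d ∧ (a ∈ J ∧ a ∉ T) ∧ (b ∈ T ∧ b ∉ J) ∧ (d ∈ T ∧ d ∉ J)))

theorem bk_of_alt {T J : Finset ℕ} (h : CS T J) {y : ℕ} (hy : y ∈ T)
    (ha : Alt (T.erase y) J) : Bk T J y := by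
  obtain ⟨a, b, c, d, hab, hbc, hcd, h1 | h1⟩ := ha
  · simp only [Finset.mem_sdiff, Finset.mem_erase, ne_eq, not_and] at h1
    obtain ⟨⟨⟨ha1, ha2⟩, ha3⟩, ⟨hb1, hb2⟩, ⟨⟨hc1, hc2⟩, hc3⟩, hd1, hd2⟩ := h1
    by_cases hby : b = y
    · subst hby
      refine ⟨hy, hb1, Or.inl ⟨a, c, d, hab, hbc, hcd, ⟨ha2, ha3⟩, ⟨hc2, hc3⟩, hd1, ?_⟩⟩
      exact hd2 (by omega)
    · by_cases hdy : d = y
      · subst hdy
        exact ⟨hy, hd1, Or.inr (Or.inl ⟨a, b, c, hab, hbc, hcd, ⟨ha2, ha3⟩, ⟨hb1, hb2 hby⟩,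
          hc2, hc3⟩)⟩
      · exact (h.no hab hbc hcd ha2 ha3 hb1 (hb2 hby) hc2 hc3 hd1 (hd2 hdy)).elim
  · simp only [Finset.mem_sdiff, Finset.mem_erase, ne_eq, not_and] at h1
    obtain ⟨⟨ha1, ha2⟩, ⟨⟨hb1, hb2⟩, hb3⟩, ⟨hc1, hc2⟩, ⟨hd1, hd2⟩, hd3⟩ := h1
    by_cases hay : a = y
    · subst hay
      refine ⟨hy, ha1, Or.inr (Or.inr (Or.inl ⟨b, c, d, hab, hbc, hcd, ⟨hb2, hb3⟩, ⟨hc1, ?_⟩,
        hd2, hd3⟩))⟩
      exact hc2 (by omega)
    · by_cases hcy : c = y
      · subst hcy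
        exact ⟨hy, hc1, Or.inr (Or.inr (Or.inr ⟨a, b, d, hab, hbc, hcd, ⟨ha1, ha2 hay⟩,
          ⟨hb2, hb3⟩, hd2, hd3⟩))⟩
      · exact (h.symm.no hab hbc hcd ha1 (ha2 hay) hb2 hb3 hc1 (hc2 hcy) hd2 hd3).elim

/-- there is a further element of `J \ T` -/
theorem Bk.exists_E {T J : Finset ℕ} {y : ℕ} (h : Bk T J y) : ∃ e, e ∈ J ∧ e ∉ T := by
  obtain ⟨-, -, h | h | h | h⟩ := h
  · obtain ⟨a, c, d, -, -, -, -, -, h⟩ := h; exact ⟨d, h⟩
  · obtain ⟨a, c, d, -, -, -, -, h, -⟩ := h; exact ⟨_, h⟩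
  · obtain ⟨a, c, d, -, -, -, -, h, -⟩ := h; exact ⟨_, h⟩
  · obtain ⟨a, c, d, -, -, -, h, -, -⟩ := h; exact ⟨_, h⟩

/-- no element of `J \ T` between `y` and the next element of `T \ J` on the right -/
theorem Bk.right {T J : Finset ℕ} (hCS : CS T J) {y : ℕ} (h : Bk T J y) {e r : ℕ}
    (he : e ∈ J) (he' : e ∉ T) (hye : y < e) (her : e < r)
    (hmin : ∀ x, y < x → x < r → x ∈ T → x ∈ J) : False := by
  obtain ⟨-, -, h | h | h | h⟩ := h
  · obtain ⟨a, c, d, h1, h2, h3, h4, h5, h6⟩ := h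
    have hrc : r ≤ c := by
      by_contra hcon; exact h5.2 (hmin c h2 (by omega) h5.1)
    exact hCS.no (a := a) (b := e) (c := c) (d := d) (by omega) (by omega) h3 h4.1 h4.2 he he'
      h5.1 h5.2 h6.1 h6.2
  · obtain ⟨a, b, c, h1, h2, h3, h4, h5, h6⟩ := h
    exact hCS.no (a := a) (b := b) (c := c) (d := e) h1 h2 (by omega) h4.1 h4.2 h5.1 h5.2
      h6.1 h6.2 he he'
  · obtain ⟨b, c, d, h1, h2, h3, h4, h5, h6⟩ := h
    have hrc : r ≤ b := by
      by_contra hcon; exact h4.2 (hmin b h1 (by omega) h4.1)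
    exact hCS.symm.no (a := e) (b := b) (c := c) (d := d) (by omega) h2 h3 he he' h4.1 h4.2
      h5.1 h5.2 h6.1 h6.2
  · obtain ⟨a, b, d, h1, h2, h3, h4, h5, h6⟩ := h
    have hrc : r ≤ d := by
      by_contra hcon; exact h6.2 (hmin d h3 (by omega) h6.1)
    exact hCS.symm.no (a := a) (b := b) (c := e) (d := d) h1 (by omega) (by omega) h4.1 h4.2
      h5.1 h5.2 he he' h6.1 h6.2

/-- no element of `J \ T` between the next element of `T \ J` on the left and `y` -/
theorem Bk.left {T J : Finset ℕ} (hCS : CS T J) {y : ℕ} (h : Bk T J y) {e r : ℕ}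
    (he : e ∈ J) (he' : e ∉ T) (hye : e < y) (her : r < e) (hr : r ∈ T) (hr' : r ∉ J)
    (hmax : ∀ x, r < x → x < y → x ∈ T → x ∈ J) : False := by
  obtain ⟨-, -, h | h | h | h⟩ := h
  · obtain ⟨a, c, d, h1, h2, h3, h4, h5, h6⟩ := h
    exact hCS.no (a := r) (b := e) (c := c) (d := d) (by omega) (by omega) h3 hr hr' he he'
      h5.1 h5.2 h6.1 h6.2
  · obtain ⟨a, b, c, h1, h2, h3, h4, h5, h6⟩ := h
    have hrc : c ≤ r := by
      by_contra hcon; exact h6.2 (hmax c (by omega) h3 h6.1)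
    exact hCS.no (a := a) (b := b) (c := r) (d := e) h1 (by omega) (by omega) h4.1 h4.2 h5.1 h5.2
      hr hr' he he'
  · obtain ⟨b, c, d, h1, h2, h3, h4, h5, h6⟩ := h
    exact hCS.no (a := r) (b := e) (c := b) (d := c) (by omega) (by omega) h2 hr hr' he he'
      h4.1 h4.2 h5.1 h5.2
  · obtain ⟨a, b, d, h1, h2, h3, h4, h5, h6⟩ := h
    have hrc : b ≤ r := by
      by_contra hcon; exact h5.2 (hmax b (by omega) h2 h5.1)
    exact hCS.symm.no (a := a) (b := r) (c := e) (d := d) (by omega) (by omega) (by omega)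
      h4.1 h4.2 hr hr' he he' h6.1 h6.2

/-- if nothing of `T \ J` is on the left of `y` then nothing of `J \ T` is there -/
theorem Bk.left0 {T J : Finset ℕ} (hCS : CS T J) {y : ℕ} (h : Bk T J y) {e : ℕ}
    (he : e ∈ J) (he' : e ∉ T) (hye : e < y) (h0 : ∀ x, x < y → x ∈ T → x ∈ J) : False := by
  obtain ⟨-, -, h | h | h | h⟩ := h
  · obtain ⟨a, c, d, h1, h2, h3, h4, h5, h6⟩ := h
    exact h4.2 (h0 a h1 h4.1)
  · obtain ⟨a, b, c, h1, h2, h3, h4, h5, h6⟩ := h
    exact h6.2 (h0 c h3 h6.1)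
  · obtain ⟨b, c, d, h1, h2, h3, h4, h5, h6⟩ := h
    exact hCS.symm.no (a := e) (b := b) (c := c) (d := d) (by omega) h2 h3 he he' h4.1 h4.2
      h5.1 h5.2 h6.1 h6.2
  · obtain ⟨a, b, d, h1, h2, h3, h4, h5, h6⟩ := h
    exact h5.2 (h0 b h2 h5.1)

/-- if nothing of `T \ J` is on the right of `y` then nothing of `J \ T` is there -/
theorem Bk.right0 {T J : Finset ℕ} (hCS : CS T J) {y : ℕ} (h : Bk T J y) {e : ℕ}
    (he : e ∈ J) (he' : e ∉ T) (hye : y < e) (h0 : ∀ x, y < x → x ∈ T → x ∈ J) : False := by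
  obtain ⟨-, -, h | h | h | h⟩ := h
  · obtain ⟨a, c, d, h1, h2, h3, h4, h5, h6⟩ := h
    exact h5.2 (h0 c h2 h5.1)
  · obtain ⟨a, b, c, h1, h2, h3, h4, h5, h6⟩ := h
    exact hCS.no (a := a) (b := b) (c := c) (d := e) h1 h2 (by omega) h4.1 h4.2 h5.1 h5.2
      h6.1 h6.2 he he'
  · obtain ⟨b, c, d, h1, h2, h3, h4, h5, h6⟩ := h
    exact h4.2 (h0 b h1 h4.1)
  · obtain ⟨a, b, d, h1, h2, h3, h4, h5, h6⟩ := h
    exact h6.2 (h0 d h3 h6.1)

/-- moving the blocked element to the left inside the same arc -/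
theorem Bk.move {T J : Finset ℕ} {y z : ℕ} (h : Bk T J y) (hz : z ∈ T) (hzy : z < y)
    (hz' : ∀ x, z ≤ x → x < y → x ∈ T → x ∈ J) : Bk T J z := by
  obtain ⟨-, -, h | h | h | h⟩ := h
  · obtain ⟨a, c, d, h1, h2, h3, h4, h5, h6⟩ := h
    refine ⟨hz, hz' z le_rfl hzy hz, Or.inl ⟨a, c, d, ?_, by omega, h3, h4, h5, h6⟩⟩
    by_contra hcon; exact h4.2 (hz' a (by omega) h1 h4.1)
  · obtain ⟨a, b, c, h1, h2, h3, h4, h5, h6⟩ := h
    refine ⟨hz, hz' z le_rfl hzy hz, Or.inr (Or.inl ⟨a, b, c, h1, h2, ?_, h4, h5, h6⟩)⟩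
    by_contra hcon; exact h6.2 (hz' c (by omega) h3 h6.1)
  · obtain ⟨b, c, d, h1, h2, h3, h4, h5, h6⟩ := h
    exact ⟨hz, hz' z le_rfl hzy hz, Or.inr (Or.inr (Or.inl ⟨b, c, d, by omega, h2, h3, h4, h5,
      h6⟩))⟩
  · obtain ⟨a, b, d, h1, h2, h3, h4, h5, h6⟩ := h
    refine ⟨hz, hz' z le_rfl hzy hz, Or.inr (Or.inr (Or.inr ⟨a, b, d, h1, ?_, by omega, h4, h5,
      h6⟩))⟩
    by_contra hcon; exact h5.2 (hz' b (by omega) h2 h5.1)

/-- the right end of the arc of `J` around `y` (`n` if there is none) -/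
noncomputable def rt (T : Finset ℕ) (n : ℕ) (J : Finset ℕ) (y : ℕ) : ℕ :=
  if h : ∃ r, y < r ∧ r ∈ T ∧ r ∉ J then Nat.find h else n

theorem rt_spec {T : Finset ℕ} {n : ℕ} (hn : ∀ x ∈ T, x < n) (J : Finset ℕ) {y : ℕ}
    (hy : y ∈ T) : y < rt T n J y ∧ rt T n J y ≤ n ∧
      (rt T n J y ≠ n → rt T n J y ∈ T ∧ rt T n J y ∉ J) ∧
      ∀ x, y < x → x < rt T n J y → x ∈ T → x ∈ J := by
  unfold rt
  split_ifs with h
  · have h1 := Nat.find_spec h
    refine ⟨h1.1, (hn _ h1.2.1).le, fun _ => h1.2, ?_⟩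
    intro x hx hx' hxT
    by_contra hcon
    exact Nat.find_min h hx' ⟨hx, hxT, hcon⟩
  · refine ⟨hn y hy, le_rfl, fun h' => (h' rfl).elim, ?_⟩
    intro x hx hx' hxT
    by_contra hcon
    exact h ⟨x, hx, hxT, hcon⟩

/-- Main combinatorial lemma, normalised: `0 ∈ T`. -/
theorem exists_free0 (C : Set (Finset ℕ)) (hC : ∀ A ∈ C, ∀ B ∈ C, CS A B) (T : Finset ℕ)
    (hT : T ∈ C) (h0 : 0 ∈ T) (hne : ∃ x ∈ T, x ≠ 0) :
    ∃ x ∈ T, x ≠ 0 ∧ ∀ J ∈ C, CS (T.erase x) J := by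
  by_contra hcon
  push Not at hcon
  have hall : ∀ y ∈ T, y ≠ 0 → ∃ J ∈ C, Bk T J y := by
    intro y hy hy0
    obtain ⟨J, hJ, hJ'⟩ := hcon y hy hy0
    refine ⟨J, hJ, bk_of_alt (hC T hT J hJ) hy ?_⟩
    unfold CS at hJ'
    exact not_not.mp hJ'
  obtain ⟨n, hn⟩ : ∃ n, ∀ x ∈ T, x < n := ⟨T.sup id + 1, fun x hx =>
    Nat.lt_succ_of_le (Finset.le_sup (f := id) hx)⟩
  -- best blockers
  have hbest : ∀ y, (y ∈ T ∧ y ≠ 0) → ∃ J ∈ C, Bk T J y ∧
      ∀ J' ∈ C, Bk T J' y → rt T n J' y ≤ rt T n J y := by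
    rintro y ⟨hy, hy0⟩
    let P : ℕ → Prop := fun r => ∃ J ∈ C, Bk T J y ∧ rt T n J y = r
    obtain ⟨J, hJ, hJ'⟩ := hall y hy hy0
    have hP : P (rt T n J y) := ⟨J, hJ, hJ', rfl⟩
    have hle : rt T n J y ≤ n := (rt_spec hn J hy).2.1
    obtain ⟨K, hK, hK', hK''⟩ : P (Nat.findGreatest P n) := Nat.findGreatest_spec hle hP
    refine ⟨K, hK, hK', ?_⟩
    intro J' h1 h2
    rw [hK'']
    have h3 : P (rt T n J' y) := ⟨J', h1, h2, rfl⟩
    have h4 : rt T n J' y ≤ Nat.findGreatest P n :=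
      Nat.le_findGreatest (rt_spec hn J' hy).2.1 h3
    exact h4
  choose! Jf hJC hJB hJmax using hbest
  -- the first element
  have hfirst : ∃ t, t ∈ T ∧ t ≠ 0 := by
    obtain ⟨x, hx, hx0⟩ := hne; exact ⟨x, hx, hx0⟩
  obtain ⟨t, ht, ht0, htmin⟩ : ∃ t, t ∈ T ∧ t ≠ 0 ∧ ∀ x ∈ T, x < t → x = 0 := by
    refine ⟨Nat.find hfirst, (Nat.find_spec hfirst).1, (Nat.find_spec hfirst).2, ?_⟩
    intro x hx hxt
    by_contra hcon
    exact Nat.find_min hfirst hxt ⟨hx, hcon⟩
  -- the sequence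
  let Y : ℕ → ℕ := fun i => Nat.rec t (fun _ y => rt T n (Jf y) y) i
  have hY0 : Y 0 = t := rfl
  have hYs : ∀ i, Y (i + 1) = rt T n (Jf (Y i)) (Y i) := fun i => rfl
  have hlt : ∀ i, Y i ∈ T → Y i < Y (i + 1) := by
    intro i hi
    rw [hYs]
    exact (rt_spec hn (Jf (Y i)) hi).1
  have hex : ∃ m, Y (m + 1) ∉ T := by
    by_contra hcon
    push Not at hcon
    have hall' : ∀ i, Y i ∈ T := by
      intro i
      cases i with
      | zero => exact ht
      | succ i => exact hcon i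
    have hgrow : ∀ i, i ≤ Y i := by
      intro i
      induction i with
      | zero => omega
      | succ i ih => have := hlt i (hall' i); omega
    have h1 := hn _ (hall' n)
    have h2 := hgrow n
    omega
  obtain ⟨m, hm, hmmin⟩ : ∃ m, Y (m + 1) ∉ T ∧ ∀ i, i < m → Y (i + 1) ∈ T := by
    refine ⟨Nat.find hex, Nat.find_spec hex, ?_⟩
    intro i hi
    by_contra hcon
    exact Nat.find_min hex hi hcon
  have hYT : ∀ i, i ≤ m → Y i ∈ T := by
    intro i hi
    cases i with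
    | zero => exact ht
    | succ i => exact hmmin i (by omega)
  have hYlt : ∀ i j, i < j → j ≤ m → Y i < Y j := by
    intro i j hij
    induction j with
    | zero => omega
    | succ j ih =>
      intro hj
      have h1 := hlt j (hYT j (by omega))
      rcases Nat.lt_or_ge i j with h | h
      · exact (ih h (by omega)).trans h1
      · have : i = j := by omega
        subst this; exact h1
  have hYpos : ∀ i, i ≤ m → Y i ≠ 0 := by
    intro i hi
    cases i with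
    | zero => exact ht0
    | succ i => have := hYlt 0 (i + 1) (by omega) hi; omega
  let J : ℕ → Finset ℕ := fun i => Jf (Y i)
  have hJC' : ∀ i, i ≤ m → J i ∈ C := fun i hi => hJC (Y i) ⟨hYT i hi, hYpos i hi⟩
  have hJB' : ∀ i, i ≤ m → Bk T (J i) (Y i) := fun i hi => hJB (Y i) ⟨hYT i hi, hYpos i hi⟩
  have hJT : ∀ i, i ≤ m → CS T (J i) := fun i hi => hC T hT _ (hJC' i hi)
  -- arcs
  have hin : ∀ i, i ≤ m → ∀ x, Y i ≤ x → x < Y (i + 1) → x ∈ T → x ∈ J i := by
    intro i hi x h1 h2 h3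
    rcases Nat.lt_or_ge (Y i) x with h | h
    · exact (rt_spec hn (Jf (Y i)) (hYT i hi)).2.2.2 x h h2 h3
    · have : x = Y i := by omega
      subst this
      exact (hJB' i hi).2.1
  have hout : ∀ i, i < m → Y (i + 1) ∉ J i := by
    intro i hi
    have h1 := (rt_spec hn (Jf (Y i)) (hYT i hi.le)).2.2.1
    refine (h1 ?_).2
    intro h2
    have h3 := hn _ (hYT (i + 1) hi)
    rw [hYs, h2] at h3
    omega
  have hlast : Y (m + 1) = n := by
    by_contra hne'
    exact hm ((rt_spec hn (Jf (Y m)) (hYT m le_rfl)).2.2.1 hne').1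
  -- left ends
  have hleft : ∀ i, i < m → ∃ l, Y i ≤ l ∧ l < Y (i + 1) ∧ l ∈ T ∧ l ∉ J (i + 1) ∧
      ∀ x, l < x → x < Y (i + 1) → x ∈ T → x ∈ J (i + 1) := by
    intro i hi
    have hexl : ∃ l, Y i ≤ l ∧ l < Y (i + 1) ∧ l ∈ T ∧ l ∉ J (i + 1) := by
      by_contra hcon
      push Not at hcon
      have hB : Bk T (J (i + 1)) (Y i) :=
        (hJB' (i + 1) hi).move (hYT i hi.le) (hlt i (hYT i hi.le)) (fun x h1 h2 h3 =>
          hcon x h1 h2 h3)
      have h1 : rt T n (J (i + 1)) (Y i) ≤ rt T n (Jf (Y i)) (Y i) :=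
        hJmax (Y i) ⟨hYT i hi.le, hYpos i hi.le⟩ _ (hJC' (i + 1) hi) hB
      rw [← hYs] at h1
      obtain ⟨h2, -, h4, -⟩ := rt_spec hn (J (i + 1)) (hYT i hi.le)
      have h3 : rt T n (J (i + 1)) (Y i) ≠ n := by
        intro h5
        have := hn _ (hYT (i + 1) hi)
        omega
      obtain ⟨h5, h6⟩ := h4 h3
      rcases Nat.lt_or_ge (rt T n (J (i + 1)) (Y i)) (Y (i + 1)) with h | h
      · exact h6 (hcon _ h2.le h h5)
      · have h7 : rt T n (J (i + 1)) (Y i) = Y (i + 1) := by omega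
        rw [h7] at h6
        exact h6 (hJB' (i + 1) hi).2.1
    let P : ℕ → Prop := fun l => Y i ≤ l ∧ l < Y (i + 1) ∧ l ∈ T ∧ l ∉ J (i + 1)
    let _ : DecidablePred P := Classical.decPred P
    obtain ⟨l, hl⟩ := hexl
    have hP : P l := hl
    have h1 : P (Nat.findGreatest P (Y (i + 1))) := Nat.findGreatest_spec hl.2.1.le hP
    refine ⟨Nat.findGreatest P (Y (i + 1)), h1.1, h1.2.1, h1.2.2.1, h1.2.2.2, ?_⟩
    intro x hx1 hx2 hx3
    by_contra hcon
    have h2 : P x := ⟨by have := h1.1; omega, hx2, hx3, hcon⟩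
    have h3 : x ≤ Nat.findGreatest P (Y (i + 1)) := Nat.le_findGreatest hx2.le h2
    omega
  choose! L hL1 hL2 hL3 hL4 hL5 using hleft
  -- index shift: `l (i+1) = L i`
  let l : ℕ → ℕ := fun i => L (i - 1)
  have hl : ∀ i, l (i + 1) = L i := fun i => rfl
  -- elements of `J i \ T`
  have hEr : ∀ i, i < m → ∀ e, e ∈ J i → e ∉ T → Y i < e → Y (i + 1) < e := by
    intro i hi e he he' hlt'
    by_contra hcon
    have hne' : e ≠ Y (i + 1) := fun h => he' (h ▸ hYT (i + 1) hi)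
    exact (hJB' i hi.le).right (hJT i hi.le) (r := Y (i + 1)) he he' hlt' (by omega)
      (fun x h1 h2 h3 => hin i hi.le x h1.le h2 h3)
  have hEl : ∀ i, i < m → ∀ e, e ∈ J (i + 1) → e ∉ T → e < Y (i + 1) → e < L i := by
    intro i hi e he he' hlt'
    by_contra hcon
    have hne' : e ≠ L i := fun h => he' (h ▸ hL3 i hi)
    exact (hJB' (i + 1) hi).left (hJT (i + 1) hi) (r := L i) he he' hlt' (by omega)
      (hL3 i hi) (hL4 i hi) (hL5 i hi)
  have hE0 : ∀ e, e ∈ J 0 → e ∉ T → ¬ e < Y 0 := by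
    intro e he he' hlt'
    by_cases h : (0 : ℕ) ∈ J 0
    · exact (hJB' 0 (by omega)).left0 (hJT 0 (by omega)) he he' hlt' (fun x h1 h2 => by
        rw [htmin x h2 h1]; exact h)
    · have hpos : 0 < e := Nat.pos_of_ne_zero (fun h' => he' (h' ▸ h0))
      exact (hJB' 0 (by omega)).left (hJT 0 (by omega)) (r := 0) he he' hlt' hpos h0 h
        (fun x h1 h2 h3 => by have := htmin x h3 h2; omega)
  have hEm : ∀ e, e ∈ J m → e ∉ T → ¬ Y m < e := by
    intro e he he' hlt'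
    exact (hJB' m le_rfl).right0 (hJT m le_rfl) he he' hlt' (fun x h1 h2 =>
      hin m le_rfl x h1.le (by rw [hlast]; exact hn x h2) h2)
  -- the predicate `there is a left element`
  let Q : ℕ → Prop := fun i => ¬ ∃ e, e ∈ J i ∧ e ∉ T ∧ e < Y i
  have hQ0 : Q 0 := by
    rintro ⟨e, h1, h2, h3⟩; exact hE0 e h1 h2 h3
  have hne_E : ∀ i, i ≤ m → ∃ e, e ∈ J i ∧ e ∉ T ∧ e ≠ Y i := by
    intro i hi
    obtain ⟨e, h1, h2⟩ := (hJB' i hi).exists_E
    exact ⟨e, h1, h2, fun h => h2 (h ▸ hYT i hi)⟩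
  have hQm : ¬ Q m := by
    intro h
    obtain ⟨e, h1, h2, h3⟩ := hne_E m le_rfl
    have := hEm e h1 h2
    exact h ⟨e, h1, h2, by omega⟩
  -- largest index with `Q`
  obtain ⟨s, hsm, hQs, hsQ⟩ : ∃ s, s < m ∧ Q s ∧ ∀ i, s < i → i ≤ m → ¬ Q i := by
    have h1 : Q (Nat.findGreatest Q m) := Nat.findGreatest_spec (P := Q) (Nat.zero_le m) hQ0
    have h2 : Nat.findGreatest Q m ≤ m := Nat.findGreatest_le m
    refine ⟨Nat.findGreatest Q m, ?_, h1, ?_⟩
    · rcases Nat.lt_or_ge (Nat.findGreatest Q m) m with h | h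
      · exact h
      · have : Nat.findGreatest Q m = m := by omega
        rw [this] at h1
        exact (hQm h1).elim
    · intro i hi hi' h3
      have h4 : i ≤ Nat.findGreatest Q m := Nat.le_findGreatest hi' h3
      omega
  -- the right element
  obtain ⟨e, he1, he2, he3⟩ : ∃ e, e ∈ J s ∧ e ∉ T ∧ Y s < e := by
    obtain ⟨e, h1, h2, h3⟩ := hne_E s hsm.le
    refine ⟨e, h1, h2, ?_⟩
    by_contra hcon
    exact hQs ⟨e, h1, h2, by omega⟩
  -- smallest `b > s` with `e ∉ J b`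
  have heY : ∀ i, s ≤ i → i ≤ m → (∀ j, s ≤ j → j < i → e ∈ J j) → Y i < e := by
    intro i
    induction i with
    | zero =>
      intro h1 h2 h3
      have : s = 0 := by omega
      subst this; exact he3
    | succ i ih =>
      intro h1 h2 h3
      rcases Nat.lt_or_ge s (i + 1) with h | h
      · exact hEr i (by omega) e (h3 i (by omega) (by omega)) he2
          (ih (by omega) (by omega) (fun j h4 h5 => h3 j h4 (by omega)))
      · have : s = i + 1 := by omega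
        subst this; exact he3
  have hexb : ∃ b, s < b ∧ b ≤ m ∧ e ∉ J b := by
    by_contra hcon
    push Not at hcon
    have h1 : ∀ j, s ≤ j → j ≤ m → e ∈ J j := by
      intro j h1 h2
      rcases Nat.lt_or_ge s j with h | h
      · exact hcon j h h2
      · have : j = s := by omega
        subst this; exact he1
    exact hEm e (h1 m hsm.le le_rfl) he2 (heY m hsm.le le_rfl (fun j h2 h3 => h1 j h2 h3.le))
  obtain ⟨b, hsb, hbm, heb, hbmin⟩ : ∃ b, s < b ∧ b ≤ m ∧ e ∉ J b ∧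
      ∀ i, s ≤ i → i < b → e ∈ J i := by
    obtain ⟨h1, h2, h3⟩ := Nat.find_spec hexb
    refine ⟨Nat.find hexb, h1, h2, h3, ?_⟩
    intro i h4 h5
    rcases Nat.lt_or_ge s i with h | h
    · by_contra hcon
      exact Nat.find_min hexb h5 ⟨h, by omega, hcon⟩
    · have : i = s := by omega
      subst this; exact he1
  -- the left element at `b`
  obtain ⟨e', he'1, he'2, he'3⟩ : ∃ e', e' ∈ J b ∧ e' ∉ T ∧ e' < Y b := by
    have := hsQ b hsb hbm
    exact not_not.mp this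
  have he'Y : ∀ k, k ≤ b - s → (∀ j, b - k ≤ j → j ≤ b → e' ∈ J j) → e' < Y (b - k) := by
    intro k
    induction k with
    | zero => intro _ _; exact he'3
    | succ k ih =>
      intro h1 h2
      have h3 := ih (by omega) (fun j h4 h5 => h2 j (by omega) h5)
      obtain ⟨i, hi⟩ : ∃ i, b - k = i + 1 := ⟨b - k - 1, by omega⟩
      have hi' : b - (k + 1) = i := by omega
      rw [hi] at h3
      rw [hi']
      have h4 : e' ∈ J (i + 1) := h2 (i + 1) (by omega) (by omega)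
      have h5 : e' < L i := hEl i (by omega) e' h4 he'2 h3
      have h6 : e' ∈ J i := h2 i (by omega) (by omega)
      rcases Nat.lt_or_ge e' (Y i) with hcon | hcon
      · exact hcon
      exfalso
      have h7 : e' ≠ Y i := fun h => he'2 (h ▸ hYT i (by omega))
      exact (hJB' i (by omega)).right (hJT i (by omega)) (r := L i) h6 he'2 (by omega) h5
        (fun x h8 h9 h10 => hin i (by omega) x h8.le (h9.trans (hL2 i (by omega))) h10)
  -- largest `a < b` with `e' ∉ J a`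
  have hexa : ∃ k, 0 < k ∧ k ≤ b - s ∧ e' ∉ J (b - k) := by
    by_contra hcon
    push Not at hcon
    have h1 : ∀ k, k ≤ b - s → e' ∈ J (b - k) := by
      intro k hk
      rcases Nat.eq_zero_or_pos k with h | h
      · subst h; exact he'1
      · exact hcon k h hk
    have h2 : e' < Y (b - (b - s)) := he'Y (b - s) le_rfl (fun j h3 h4 => by
      have := h1 (b - j) (by omega)
      rwa [show b - (b - j) = j by omega] at this)
    rw [show b - (b - s) = s by omega] at h2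
    have h3 := h1 (b - s) le_rfl
    rw [show b - (b - s) = s by omega] at h3
    exact hQs ⟨e', h3, he'2, h2⟩
  obtain ⟨k, hk0, hks, hke, hkmin⟩ : ∃ k, 0 < k ∧ k ≤ b - s ∧ e' ∉ J (b - k) ∧
      ∀ j, j < k → e' ∈ J (b - j) := by
    obtain ⟨h1, h2, h3⟩ := Nat.find_spec hexa
    refine ⟨Nat.find hexa, h1, h2, h3, ?_⟩
    intro j hj
    rcases Nat.eq_zero_or_pos j with h | h
    · subst h; exact he'1
    · by_contra hcon
      exact Nat.find_min hexa hj ⟨h, by omega, hcon⟩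
  have hab : b = (b - k) + (k - 1) + 1 := by omega
  refine chain J l Y m (fun i j hi hj => hC _ (hJC' i hi) _ (hJC' j hj)) ?_ ?_ ?_ ?_ ?_ ?_ ?_
    (k - 1) (b - k) b hab hbm e' e hke ?_ ?_ heb ?_ ?_
  · intro i hi
    exact hin i hi.le (L i) (hL1 i hi) (hL2 i hi) (hL3 i hi)
  · intro i hi; exact hL4 i hi
  · intro i hi; exact hout i hi
  · intro i hi; exact (hJB' (i + 1) hi).2.1
  · intro i hi; exact hL2 i hi
  · intro i j hi hij hj
    obtain ⟨i', rfl⟩ : ∃ i', i = i' + 1 := ⟨i - 1, by omega⟩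
    obtain ⟨j', rfl⟩ : ∃ j', j = j' + 1 := ⟨j - 1, by omega⟩
    have h1 := hL2 i' (by omega)
    have h2 := hL1 j' (by omega)
    change L i' < L j'
    rcases Nat.lt_or_ge (i' + 1) j' with h | h
    · have h3 := hYlt (i' + 1) j' h (by omega)
      omega
    · have : j' = i' + 1 := by omega
      subst this
      omega
  · intro i j _ hij hj; exact hYlt i j hij hj
  · intro i h1 h2
    have := hkmin (b - i) (by omega)
    rwa [show b - (b - i) = i by omega] at this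
  · intro i h1 h2; exact hbmin i (by omega) h2
  · -- `e' < L (b - k)`
    have h1 : e' ∈ J (b - k + 1) := by
      have := hkmin (k - 1) (by omega)
      rwa [show b - (k - 1) = b - k + 1 by omega] at this
    have h2 : e' < Y (b - (k - 1)) := he'Y (k - 1) (by omega) (fun j h3 h4 => by
      have := hkmin (b - j) (by omega)
      rwa [show b - (b - j) = j by omega] at this)
    rw [show b - (k - 1) = b - k + 1 by omega] at h2
    exact hEl (b - k) (by omega) e' h1 he'2 h2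
  · exact heY b hsb.le hbm (fun j h1 h2 => hbmin j h1 h2)

end Pool.Agent.W297.WS
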