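import Pool.Agent.W297.WS.Defs

/-!
# Contractibility from covers by stars, and removal of several vertices
-/

set_option autoImplicit false
open Classical

namespace Pool.Agent.W297.WS

theorem geo_clique_contractible {V : Type} (adj : V → V → Prop) (W : Finset V)
    (hW : ∀ a ∈ W, ∀ b ∈ W, adj a b) (hne : W.Nonempty) : ContractibleSpace (Geo adj W) := by
  have hconv : Convex ℝ (Geo adj W) := by
    intro x hx y hy a b ha hb hab
    obtain ⟨hx1, hx2, hx3, hx4⟩ := hx
    obtain ⟨hy1, hy2, hy3, hy4⟩ := hy
    refine ⟨?_, ?_, ?_, ?_⟩
    · intro v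
      have := hx1 v
      have := hy1 v
      simp only [Pi.add_apply, Pi.smul_apply, smul_eq_mul]
      positivity
    · intro v hv
      simp [hx2 v hv, hy2 v hv]
    · simp only [Pi.add_apply, Pi.smul_apply, smul_eq_mul, Finset.sum_add_distrib,
        ← Finset.mul_sum, hx3, hy3]
      linarith
    · intro v w hv hw
      have h1 : v ∈ W := by
        by_contra h
        exact hv (by simp [hx2 v h, hy2 v h])
      have h2 : w ∈ W := by
        by_contra h
        exact hw (by simp [hx2 w h, hy2 w h])
      exact hW v h1 w h2
  obtain ⟨u, hu⟩ := hne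
  refine hconv.contractibleSpace ⟨fun v => if v = u then 1 else 0, ?_, ?_, ?_, ?_⟩
  · intro v; dsimp only; split_ifs <;> norm_num
  · intro v hv
    have : v ≠ u := fun h => hv (h ▸ hu)
    simp [this]
  · simp [hu]
  · intro v w hv hw
    have h1 : v = u := by
      by_contra h; exact hv (by simp [h])
    have h2 : w = u := by
      by_contra h; exact hw (by simp [h])
    subst h1; subst h2
    exact hW _ hu _ hu

theorem cover_contractible (hR : TRemoval) {V : Type} (adj : V → V → Prop)
    (hs : ∀ a b, adj a b → adj b a) (hr : ∀ a, adj a a) :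
    ∀ (n : ℕ) (W F : Finset V), W.card = n → F ⊆ W → (∀ a ∈ F, ∀ b ∈ F, adj a b) →
      (∀ ρ ⊆ W, (∀ a ∈ ρ, ∀ b ∈ ρ, adj a b) → ∃ v ∈ F, ∀ a ∈ ρ, adj v a) →
      ContractibleSpace (Geo adj W) := by
  intro n
  induction n using Nat.strong_induction_on with
  | _ n ih =>
    intro W F hn hFW hF hcov
    by_cases hWF : W ⊆ F
    · have : W = F := Finset.Subset.antisymm hWF hFW
      subst this
      obtain ⟨v, hv, -⟩ := hcov ∅ (by simp) (by simp)
      exact geo_clique_contractible adj W hF ⟨v, hv⟩
    · obtain ⟨u, huW, huF⟩ := Finset.not_subset.mp hWF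
      have hlt : (W.erase u).card < n := by rw [← hn]; exact Finset.card_erase_lt_of_mem huW
      have hFe : F ⊆ W.erase u := by
        intro v hv
        exact Finset.mem_erase.mpr ⟨fun h => huF (h ▸ hv), hFW hv⟩
      -- the link
      have hlink : ContractibleSpace (Geo adj ((W.erase u).filter (fun v => adj u v))) := by
        refine ih ((W.erase u).filter (fun v => adj u v)).card
          (lt_of_le_of_lt (Finset.card_filter_le _ _) hlt) _ (F.filter (fun v => adj u v)) rfl
          (Finset.filter_subset_filter _ hFe) ?_ ?_
        · intro a ha b hb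
          exact hF a (Finset.mem_filter.mp ha).1 b (Finset.mem_filter.mp hb).1
        · intro ρ hρ hρc
          have hi1 : insert u ρ ⊆ W := by
            intro a ha
            rcases Finset.mem_insert.mp ha with h | ha
            · rw [h]; exact huW
            · exact Finset.mem_of_mem_erase (Finset.mem_filter.mp (hρ ha)).1
          have hi2 : ∀ a ∈ insert u ρ, ∀ b ∈ insert u ρ, adj a b := by
            intro a ha b hb
            rcases Finset.mem_insert.mp ha with h | ha
            · rcases Finset.mem_insert.mp hb with h' | hb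
              · rw [h, h']; exact hr _
              · rw [h]; exact (Finset.mem_filter.mp (hρ hb)).2
            · rcases Finset.mem_insert.mp hb with h' | hb
              · rw [h']; exact hs _ _ (Finset.mem_filter.mp (hρ ha)).2
              · exact hρc a ha b hb
          obtain ⟨v, hv, hva⟩ := hcov (insert u ρ) hi1 hi2
          refine ⟨v, Finset.mem_filter.mpr ⟨hv, hs _ _ (hva u (Finset.mem_insert_self _ _))⟩, ?_⟩
          intro a ha
          exact hva a (Finset.mem_insert_of_mem ha)
      obtain ⟨e⟩ := hR V adj hs hr (W.erase u) u (Finset.notMem_erase u W) hlink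
      rw [Finset.insert_erase huW] at e
      have : ContractibleSpace (Geo adj (W.erase u)) := by
        refine ih (W.erase u).card hlt _ F rfl hFe hF ?_
        intro ρ hρ hρc
        exact hcov ρ (hρ.trans (Finset.erase_subset _ _)) hρc
      exact e.symm.contractibleSpace

theorem remCover (hR : TRemoval) : TRemCover := by
  intro V adj hs hr W Q
  induction Q using Finset.induction_on with
  | empty =>
    intro F _
    rw [Finset.union_empty]
    exact ⟨ContinuousMap.HomotopyEquiv.refl _⟩
  | insert T Q hTQ ih =>
    intro F hF
    obtain ⟨e1⟩ := ih F (by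
      intro S hS
      obtain ⟨h1, h2, h3, h4⟩ := hF S (Finset.mem_insert_of_mem hS)
      refine ⟨h1, h2, h3, ?_⟩
      intro ρ hρ
      exact h4 ρ (hρ.trans (Finset.union_subset_union le_rfl (Finset.subset_insert _ _))))
    by_cases hT : T ∈ W ∪ Q
    · rw [Finset.union_insert, Finset.insert_eq_of_mem hT]
      exact ⟨e1⟩
    · rw [Finset.union_insert]
      obtain ⟨h1, h2, h3, h4⟩ := hF T (Finset.mem_insert_self _ _)
      have hlink : ContractibleSpace (Geo adj ((W ∪ Q).filter (fun v => adj T v))) := by
        refine cover_contractible hR adj hs hr _ _ (F T) rfl ?_ h3 ?_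
        · intro v hv
          exact Finset.mem_filter.mpr ⟨Finset.mem_union_left _ (h1 hv), h2 v hv⟩
        · intro ρ hρ hρc
          refine h4 ρ ?_ hρc ?_
          · intro a ha
            have := (Finset.mem_filter.mp (hρ ha)).1
            rw [Finset.union_insert]
            exact Finset.mem_insert_of_mem this
          · intro a ha
            exact (Finset.mem_filter.mp (hρ ha)).2
      obtain ⟨e2⟩ := hR V adj hs hr (W ∪ Q) T hT hlink
      exact ⟨e1.trans e2⟩

end Pool.Agent.W297.WS
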