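import Mathlib

/-!
# Realizations of flag complexes, definitions and statements

Project WS (frozen statement S09529, the reduced weak separation complex is a homotopy sphere).
Everything is about the flag complex of a reflexive symmetric relation `adj` on a finite set `W`.
-/

set_option autoImplicit false
open Classical

namespace Pool.Agent.W297.WS

/-- Geometric realization (inside `V → ℝ`) of the flag complex of `adj` on the finite set `W`. -/
def Geo {V : Type} (adj : V → V → Prop) (W : Finset V) : Set (V → ℝ) :=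
  {x | (∀ v, 0 ≤ x v) ∧ (∀ v, v ∉ W → x v = 0) ∧ (∑ v ∈ W, x v = 1) ∧
    ∀ v w, x v ≠ 0 → x w ≠ 0 → adj v w}

/-- WS1 (topology).  A vertex with contractible link can be removed. -/
def TRemoval : Prop :=
  ∀ (V : Type) (adj : V → V → Prop), (∀ a b, adj a b → adj b a) → (∀ a, adj a a) →
    ∀ (W : Finset V) (T : V), T ∉ W →
      ContractibleSpace (Geo adj (W.filter (fun v => adj T v))) →
      Nonempty (ContinuousMap.HomotopyEquiv (Geo adj W) (Geo adj (insert T W)))

/-- WS2 (topology).  Relabelling the vertices. -/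
def TRelabel : Prop :=
  ∀ (V V' : Type) (adj : V → V → Prop) (adj' : V' → V' → Prop) (W : Finset V) (f : V → V'),
    Set.InjOn f (W : Set V) → (∀ a ∈ W, ∀ b ∈ W, (adj' (f a) (f b) ↔ adj a b)) →
    Nonempty (Geo adj W ≃ₜ Geo adj' (W.image f))

/-- `4`-alternation of two finite sets of natural numbers. -/
def Alt (A B : Finset ℕ) : Prop :=
  ∃ a b c d : ℕ, a < b ∧ b < c ∧ c < d ∧
    ((a ∈ A \ B ∧ b ∈ B \ A ∧ c ∈ A \ B ∧ d ∈ B \ A) ∨
     (a ∈ B \ A ∧ b ∈ A \ B ∧ c ∈ B \ A ∧ d ∈ A \ B))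

/-- chord separation -/
def CS (A B : Finset ℕ) : Prop := ¬ Alt A B

/-- `S` is not a cyclic interval of `{0,…,n-1}`: its membership alternates four times. -/
def AltC (n : ℕ) (S : Finset ℕ) : Prop :=
  ∃ a b c d : ℕ, a < b ∧ b < c ∧ c < d ∧ d < n ∧
    ((a ∈ S ∧ b ∉ S ∧ c ∈ S ∧ d ∉ S) ∨ (a ∉ S ∧ b ∈ S ∧ c ∉ S ∧ d ∈ S))

/-- WS3 (combinatorics).  Characterisation of the sets which are not cyclic intervals. -/
def TInterval : Prop :=
  ∀ (n k : ℕ) (S : Finset ℕ), 1 ≤ k → k < n → S ⊆ Finset.range n → S.card = k →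
    ((¬ ∃ i, i < n ∧ S = (Finset.range k).image (fun j => (i + j) % n)) ↔ AltC n S)

/-- the relation of the cross-polytope on `Fin d ⊕ Fin d` -/
def cpAdj (d : ℕ) : Fin d ⊕ Fin d → Fin d ⊕ Fin d → Prop
  | Sum.inl i, Sum.inr j => i ≠ j
  | Sum.inr i, Sum.inl j => i ≠ j
  | _, _ => True

/-- WS4 (topology).  The cross-polytope is a sphere. -/
def TCross : Prop :=
  ∀ d : ℕ, Nonempty (Geo (cpAdj d) Finset.univ ≃ₜ
    Metric.sphere (0 : EuclideanSpace ℝ (Fin d)) 1)

/-- the vertices at level `k`: subsets of `{0,…,n-1}` with `k` elements, not cyclic intervals -/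
noncomputable def X (n k : ℕ) : Finset (Finset ℕ) :=
  (Finset.range n).powerset.filter (fun S => S.card = k ∧ AltC n S)

/-- Several vertices removed at once: if every `T ∈ Q` has a clique `F T ⊆ W` of neighbours such that
every clique of neighbours of `T` in `W ∪ Q` has a common neighbour in `F T`, then `W` and `W ∪ Q`
have homotopy equivalent realizations. (helper297 proves this from `TRemoval`.) -/
def TRemCover : Prop :=
  ∀ (V : Type) (adj : V → V → Prop), (∀ a b, adj a b → adj b a) → (∀ a, adj a a) →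
    ∀ (W Q : Finset V) (F : V → Finset V),
      (∀ T ∈ Q, F T ⊆ W ∧ (∀ a ∈ F T, adj T a) ∧ (∀ a ∈ F T, ∀ b ∈ F T, adj a b) ∧
        ∀ ρ ⊆ W ∪ Q, (∀ a ∈ ρ, ∀ b ∈ ρ, adj a b) → (∀ a ∈ ρ, adj T a) →
          ∃ v ∈ F T, ∀ a ∈ ρ, adj v a) →
      Nonempty (ContinuousMap.HomotopyEquiv (Geo adj W) (Geo adj (W ∪ Q)))

/-- WS5: the base case, the boundary of the dual associahedron is a sphere up to homotopy. -/
def TBase : Prop :=
  ∀ n : ℕ, 4 ≤ n → Nonempty (ContinuousMap.HomotopyEquiv (Geo CS (X n 2))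
    (Metric.sphere (0 : EuclideanSpace ℝ (Fin (n - 3))) 1))

end Pool.Agent.W297.WS
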