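import Pool.Agent.W297.WS.Defs

/-!
# Cyclic intervals and alternation
-/

set_option autoImplicit false
open Classical

namespace Pool.Agent.W297.WS

theorem mem_arc {n k i x : ℕ} (hi : i < n) (hx : x < n) :
    x ∈ (Finset.range k).image (fun j => (i + j) % n) ↔
      ((i ≤ x ∧ x - i < k) ∨ (x < i ∧ x + n - i < k) ∨ n ≤ k) := by
  constructor
  · intro h
    obtain ⟨j, hj, hjx⟩ := Finset.mem_image.mp h
    have hjk := Finset.mem_range.mp hj
    by_cases hkn : n ≤ k
    · exact Or.inr (Or.inr hkn)
    · rcases Nat.lt_or_ge (i + j) n with h1 | h1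
      · rw [Nat.mod_eq_of_lt h1] at hjx
        left; omega
      · have h2 : (i + j) % n = i + j - n := by
          rw [Nat.mod_eq_sub_mod h1, Nat.mod_eq_of_lt (by omega)]
        rw [h2] at hjx
        right; left; omega
  · intro h
    have h3 : ∃ j, j < k ∧ (i + j) % n = x := by
      rcases Nat.lt_or_ge x i with h1 | h1
      · refine ⟨x + n - i, by omega, ?_⟩
        rw [show i + (x + n - i) = x + n by omega, Nat.add_mod_right, Nat.mod_eq_of_lt hx]
      · refine ⟨x - i, by omega, ?_⟩
        rw [show i + (x - i) = x by omega, Nat.mod_eq_of_lt hx]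
    obtain ⟨j, hj, hjx⟩ := h3
    exact Finset.mem_image.mpr ⟨j, Finset.mem_range.mpr hj, hjx⟩

theorem tInterval : TInterval := by
  intro n k S hk hkn hS hc
  constructor
  · intro hno
    by_contra halt
    apply hno
    have hne : S.Nonempty := Finset.card_pos.mp (by omega)
    by_cases h0 : (0 : ℕ) ∈ S ∧ n - 1 ∈ S
    · -- the complement is an interval
      have hcne : ∃ x, x < n ∧ x ∉ S := by
        by_contra hcon
        push Not at hcon
        have : Finset.range n ⊆ S := fun x hx => hcon x (Finset.mem_range.mp hx)
        have := Finset.card_le_card this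
        rw [Finset.card_range] at this
        omega
      -- smallest and largest missing elements
      obtain ⟨c, hcn, hcS, hcmin⟩ : ∃ c, c < n ∧ c ∉ S ∧ ∀ x, x < c → x ∈ S := by
        obtain ⟨h1, h2⟩ := Nat.find_spec hcne
        refine ⟨Nat.find hcne, h1, h2, ?_⟩
        intro x hx
        by_contra hcon
        exact Nat.find_min hcne hx ⟨by omega, hcon⟩
      have hc0 : c ≠ 0 := fun h => hcS (h ▸ h0.1)
      have hcl : c ≠ n - 1 := fun h => hcS (h ▸ h0.2)
      -- the first element of `S` after `c`
      have hex : ∃ i, c < i ∧ i ∈ S := ⟨n - 1, by omega, h0.2⟩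
      obtain ⟨i, hci, hiS, himin⟩ : ∃ i, c < i ∧ i ∈ S ∧ ∀ x, c < x → x < i → x ∉ S := by
        obtain ⟨h1, h2⟩ := Nat.find_spec hex
        refine ⟨Nat.find hex, h1, h2, ?_⟩
        intro x hx1 hx2 hx3
        exact Nat.find_min hex hx2 ⟨hx1, hx3⟩
      have hin : i < n := Finset.mem_range.mp (hS hiS)
      have hall : ∀ x, i ≤ x → x < n → x ∈ S := by
        intro x h1 h2
        by_contra hcon
        have h3 : x ≠ i := fun h => hcon (h ▸ hiS)
        have h4 : x ≠ n - 1 := fun h => hcon (h ▸ h0.2)
        exact halt ⟨0, c, i, x, by omega, hci, by omega, h2, Or.inl ⟨h0.1, hcS, hiS, hcon⟩⟩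
      have hmem : ∀ x, x < n → (x ∈ S ↔ (i ≤ x ∨ x < c)) := by
        intro x hx
        constructor
        · intro h
          by_contra hcon
          push Not at hcon
          rcases Nat.lt_or_ge c x with h5 | h5
          · exact himin x h5 hcon.1 h
          · have : x = c := by omega
            exact hcS (this ▸ h)
        · rintro (h | h)
          · exact hall x h hx
          · exact hcmin x h
      -- cardinality
      have hcard : S.card = (n - i) + c := by
        have h6 : S = Finset.Ico i n ∪ Finset.range c := by
          ext x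
          simp only [Finset.mem_union, Finset.mem_Ico, Finset.mem_range]
          constructor
          · intro h
            have hxn := Finset.mem_range.mp (hS h)
            rcases (hmem x hxn).mp h with h | h
            · exact Or.inl ⟨h, hxn⟩
            · exact Or.inr h
          · rintro (⟨h, h'⟩ | h)
            · exact hall x h h'
            · exact hcmin x h
        rw [h6, Finset.card_union_of_disjoint, Nat.card_Ico, Finset.card_range]
        rw [Finset.disjoint_left]
        intro x hx hx'
        have := (Finset.mem_Ico.mp hx).1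
        have := Finset.mem_range.mp hx'
        omega
      refine ⟨i, hin, ?_⟩
      ext x
      constructor
      · intro h
        have hxn := Finset.mem_range.mp (hS h)
        rw [mem_arc hin hxn]
        have := (hmem x hxn).mp h
        omega
      · intro h
        have hxn : x < n := by
          obtain ⟨j, -, rfl⟩ := Finset.mem_image.mp h
          exact Nat.mod_lt _ (by omega)
        rw [mem_arc hin hxn] at h
        rw [hmem x hxn]
        omega
    · -- `S` is an honest interval
      obtain ⟨i, hiS, himin⟩ : ∃ i, i ∈ S ∧ ∀ x, x < i → x ∉ S := by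
        have hex : ∃ i, i ∈ S := hne
        exact ⟨Nat.find hex, Nat.find_spec hex, fun x hx hxS => Nat.find_min hex hx hxS⟩
      have hin : i < n := Finset.mem_range.mp (hS hiS)
      have hmem : ∀ x y, x ∈ S → y < x → i ≤ y → y ∈ S := by
        intro x y hx hyx hiy
        by_contra hcon
        have hyi : y ≠ i := fun h => hcon (h ▸ hiS)
        have hxn := Finset.mem_range.mp (hS hx)
        by_cases h00 : (0 : ℕ) ∈ S
        · have hn1 : n - 1 ∉ S := fun h => h0 ⟨h00, h⟩
          have hi0 : i = 0 := by
            by_contra h
            exact himin 0 (by omega) h00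
          have hxn1 : x ≠ n - 1 := fun h => hn1 (h ▸ hx)
          exact halt ⟨i, y, x, n - 1, by omega, hyx, by omega, by omega,
            Or.inl ⟨hiS, hcon, hx, hn1⟩⟩
        · have hi0 : i ≠ 0 := fun h => h00 (h ▸ hiS)
          exact halt ⟨0, i, y, x, by omega, by omega, hyx, hxn, Or.inr ⟨h00, hiS, hcon, hx⟩⟩
      -- the greatest element
      obtain ⟨M, hMS, hMmax⟩ : ∃ M, M ∈ S ∧ ∀ x ∈ S, x ≤ M :=
        ⟨S.max' hne, S.max'_mem hne, fun x hx => S.le_max' x hx⟩
      have hMn : M < n := Finset.mem_range.mp (hS hMS)
      have hiM : i ≤ M := hMmax i hiS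
      have hSe : S = Finset.Icc i M := by
        ext x
        rw [Finset.mem_Icc]
        constructor
        · intro h
          refine ⟨?_, hMmax x h⟩
          by_contra hcon
          exact himin x (by omega) h
        · rintro ⟨h1, h2⟩
          rcases Nat.lt_or_ge x M with h3 | h3
          · exact hmem M x hMS h3 h1
          · have : x = M := by omega
            rw [this]; exact hMS
      have hcard : k = M + 1 - i := by
        rw [← hc, hSe, Nat.card_Icc]
      refine ⟨i, hin, ?_⟩
      ext x
      constructor
      · intro h
        have hxn := Finset.mem_range.mp (hS h)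
        rw [mem_arc hin hxn]
        rw [hSe, Finset.mem_Icc] at h
        omega
      · intro h
        have hxn : x < n := by
          obtain ⟨j, -, rfl⟩ := Finset.mem_image.mp h
          exact Nat.mod_lt _ (by omega)
        rw [mem_arc hin hxn] at h
        rw [hSe, Finset.mem_Icc]
        omega
  · rintro ⟨a, b, c, d, hab, hbc, hcd, hd, h⟩ ⟨i, hi, rfl⟩
    rw [mem_arc hi (by omega), mem_arc hi (by omega), mem_arc hi (by omega),
      mem_arc hi (by omega)] at h
    omega

end Pool.Agent.W297.WS
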