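import Pool.Agent.W297.WS.Comb

/-!
# Two consecutive levels
-/

set_option autoImplicit false
open Classical

namespace Pool.Agent.W297.WS

theorem TRemCover.use (hM : TRemCover) {V : Type} [inst : DecidableEq V] (adj : V → V → Prop)
    (hs : ∀ a b, adj a b → adj b a) (hr : ∀ a, adj a a) (W Q : Finset V) (F : V → Finset V)
    (h : ∀ T ∈ Q, F T ⊆ W ∧ (∀ a ∈ F T, adj T a) ∧ (∀ a ∈ F T, ∀ b ∈ F T, adj a b) ∧
        ∀ ρ ⊆ W ∪ Q, (∀ a ∈ ρ, ∀ b ∈ ρ, adj a b) → (∀ a ∈ ρ, adj T a) →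
          ∃ v ∈ F T, ∀ a ∈ ρ, adj v a) :
    Nonempty (ContinuousMap.HomotopyEquiv (Geo adj W) (Geo adj (W ∪ Q))) := by
  have h1 : inst = fun a b => Classical.propDecidable (a = b) := Subsingleton.elim _ _
  subst h1
  exact hM V adj hs hr W Q F h

theorem TRelabel.use (hR : TRelabel) {V V' : Type} [inst : DecidableEq V'] (adj : V → V → Prop)
    (adj' : V' → V' → Prop) (W : Finset V) (f : V → V') (hf : Set.InjOn f (W : Set V))
    (h : ∀ a ∈ W, ∀ b ∈ W, (adj' (f a) (f b) ↔ adj a b)) :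
    Nonempty (Geo adj W ≃ₜ Geo adj' (W.image f)) := by
  have h1 : inst = fun a b => Classical.propDecidable (a = b) := Subsingleton.elim _ _
  subst h1
  exact hR V V' adj adj' W f hf h

/-- rotation of `{0,…,n-1}` taking `p` to `0` -/
def rot (p n x : ℕ) : ℕ := if p ≤ x then x - p else x + n - p

theorem rot_inj {p n x y : ℕ} (hp : p < n) (hx : x < n) (hy : y < n)
    (h : rot p n x = rot p n y) : x = y := by
  unfold rot at h
  split_ifs at h <;> omega

theorem mem_rot {p n : ℕ} (hp : p < n) {A : Finset ℕ} (hA : A ⊆ Finset.range n) {x : ℕ}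
    (hx : x < n) : rot p n x ∈ A.image (rot p n) ↔ x ∈ A := by
  constructor
  · intro h
    obtain ⟨y, hy, hxy⟩ := Finset.mem_image.mp h
    rw [← rot_inj hp (Finset.mem_range.mp (hA hy)) hx hxy]
    exact hy
  · intro h
    exact Finset.mem_image_of_mem _ h

theorem alt_rot_aux {p n : ℕ} (hp : p < n) {A B : Finset ℕ} (hA : A ⊆ Finset.range n)
    (hB : B ⊆ Finset.range n) {a b c d : ℕ} (hab : a < b) (hbc : b < c) (hcd : c < d)
    (ha : a ∈ A \ B) (hb : b ∈ B \ A) (hc : c ∈ A \ B) (hd : d ∈ B \ A) :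
    Alt (A.image (rot p n)) (B.image (rot p n)) := by
  have key : ∀ {P Q : Finset ℕ}, P ⊆ Finset.range n → Q ⊆ Finset.range n → ∀ {x : ℕ},
      x ∈ P \ Q → rot p n x ∈ (P.image (rot p n)) \ (Q.image (rot p n)) := by
    intro P Q hP hQ x hx
    obtain ⟨h1, h2⟩ := Finset.mem_sdiff.mp hx
    have hxn := Finset.mem_range.mp (hP h1)
    exact Finset.mem_sdiff.mpr ⟨(mem_rot hp hP hxn).mpr h1, fun h => h2 ((mem_rot hp hQ hxn).mp h)⟩
  have hdn : d < n := Finset.mem_range.mp (hB (Finset.mem_sdiff.mp hd).1)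
  have ha' := key hA hB ha
  have hb' := key hB hA hb
  have hc' := key hA hB hc
  have hd' := key hB hA hd
  by_cases h1 : p ≤ a
  · refine ⟨rot p n a, rot p n b, rot p n c, rot p n d, ?_, ?_, ?_, Or.inl ⟨ha', hb', hc', hd'⟩⟩
    all_goals (unfold rot; split_ifs <;> omega)
  by_cases h2 : p ≤ b
  · refine ⟨rot p n b, rot p n c, rot p n d, rot p n a, ?_, ?_, ?_, Or.inr ⟨hb', hc', hd', ha'⟩⟩
    all_goals (unfold rot; split_ifs <;> omega)
  by_cases h3 : p ≤ c
  · refine ⟨rot p n c, rot p n d, rot p n a, rot p n b, ?_, ?_, ?_, Or.inl ⟨hc', hd', ha', hb'⟩⟩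
    all_goals (unfold rot; split_ifs <;> omega)
  by_cases h4 : p ≤ d
  · refine ⟨rot p n d, rot p n a, rot p n b, rot p n c, ?_, ?_, ?_, Or.inr ⟨hd', ha', hb', hc'⟩⟩
    all_goals (unfold rot; split_ifs <;> omega)
  · refine ⟨rot p n a, rot p n b, rot p n c, rot p n d, ?_, ?_, ?_, Or.inl ⟨ha', hb', hc', hd'⟩⟩
    all_goals (unfold rot; split_ifs <;> omega)

theorem Alt.symm {A B : Finset ℕ} (h : Alt A B) : Alt B A := by
  obtain ⟨a, b, c, d, h1, h2, h3, h4⟩ := h
  exact ⟨a, b, c, d, h1, h2, h3, h4.symm⟩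

theorem alt_rot {p n : ℕ} (hp : p < n) {A B : Finset ℕ} (hA : A ⊆ Finset.range n)
    (hB : B ⊆ Finset.range n) (h : Alt A B) :
    Alt (A.image (rot p n)) (B.image (rot p n)) := by
  obtain ⟨a, b, c, d, hab, hbc, hcd, ⟨ha, hb, hc, hd⟩ | ⟨ha, hb, hc, hd⟩⟩ := h
  · exact alt_rot_aux hp hA hB hab hbc hcd ha hb hc hd
  · exact (alt_rot_aux hp hB hA hab hbc hcd ha hb hc hd).symm

theorem rot_lt {p n x : ℕ} (hp : p < n) (hx : x < n) : rot p n x < n := by
  unfold rot; split_ifs <;> omega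

theorem image_rot_sub {p n : ℕ} (hp : p < n) {A : Finset ℕ} (hA : A ⊆ Finset.range n) :
    A.image (rot p n) ⊆ Finset.range n := by
  intro y hy
  obtain ⟨x, hx, rfl⟩ := Finset.mem_image.mp hy
  exact Finset.mem_range.mpr (rot_lt hp (Finset.mem_range.mp (hA hx)))

theorem image_rot_rot {p n : ℕ} (hp0 : 0 < p) (hp : p < n) {A : Finset ℕ}
    (hA : A ⊆ Finset.range n) : (A.image (rot p n)).image (rot (n - p) n) = A := by
  rw [Finset.image_image]
  ext x
  constructor
  · intro h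
    obtain ⟨y, hy, rfl⟩ := Finset.mem_image.mp h
    have hyn := Finset.mem_range.mp (hA hy)
    have : (rot (n - p) n ∘ rot p n) y = y := by
      simp only [Function.comp]
      unfold rot
      split_ifs <;> omega
    rw [this]; exact hy
  · intro h
    have hyn := Finset.mem_range.mp (hA h)
    refine Finset.mem_image.mpr ⟨x, h, ?_⟩
    simp only [Function.comp]
    unfold rot
    split_ifs <;> omega

theorem rot_zero (n x : ℕ) : rot 0 n x = x := by simp [rot]

theorem cs_rot {p n : ℕ} (hp : p < n) {A B : Finset ℕ} (hA : A ⊆ Finset.range n)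
    (hB : B ⊆ Finset.range n) : CS (A.image (rot p n)) (B.image (rot p n)) ↔ CS A B := by
  constructor
  · intro h h'
    exact h (alt_rot hp hA hB h')
  · intro h h'
    rcases Nat.eq_zero_or_pos p with h0 | h0
    · subst h0
      have : rot 0 n = id := by funext x; exact rot_zero n x
      rw [this, Finset.image_id, Finset.image_id] at h'
      exact h h'
    · have h1 := alt_rot (p := n - p) (by omega) (image_rot_sub hp hA) (image_rot_sub hp hB) h'
      rw [image_rot_rot h0 hp hA, image_rot_rot h0 hp hB] at h1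
      exact h h1

/-- Main combinatorial lemma, any `p ∈ T`. -/
theorem exists_free (n : ℕ) (C : Set (Finset ℕ)) (hCn : ∀ A ∈ C, A ⊆ Finset.range n)
    (hC : ∀ A ∈ C, ∀ B ∈ C, CS A B) (T : Finset ℕ)
    (hT : T ∈ C) (p : ℕ) (hp : p ∈ T) (hne : ∃ x ∈ T, x ≠ p) :
    ∃ x ∈ T, x ≠ p ∧ ∀ J ∈ C, CS (T.erase x) J := by
  have hpn : p < n := Finset.mem_range.mp (hCn T hT hp)
  have h := exists_free0 {S | ∃ A ∈ C, S = A.image (rot p n)} ?_ (T.image (rot p n)) ⟨T, hT, rfl⟩
    ?_ ?_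
  · obtain ⟨x', hx', hx'0, hx'C⟩ := h
    obtain ⟨x, hx, rfl⟩ := Finset.mem_image.mp hx'
    have hxn : x < n := Finset.mem_range.mp (hCn T hT hx)
    refine ⟨x, hx, ?_, ?_⟩
    · rintro rfl
      exact hx'0 (by simp [rot])
    · intro J hJ
      have h1 := hx'C _ ⟨J, hJ, rfl⟩
      have h2 : (T.image (rot p n)).erase (rot p n x) = (T.erase x).image (rot p n) := by
        ext y
        constructor
        · intro hy
          obtain ⟨hy1, hy2⟩ := Finset.mem_erase.mp hy
          obtain ⟨z, hz, rfl⟩ := Finset.mem_image.mp hy2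
          exact Finset.mem_image_of_mem _ (Finset.mem_erase.mpr ⟨fun h => hy1 (h ▸ rfl), hz⟩)
        · intro hy
          obtain ⟨z, hz, rfl⟩ := Finset.mem_image.mp hy
          obtain ⟨hz1, hz2⟩ := Finset.mem_erase.mp hz
          refine Finset.mem_erase.mpr ⟨?_, Finset.mem_image_of_mem _ hz2⟩
          intro h
          exact hz1 (rot_inj hpn (Finset.mem_range.mp (hCn T hT hz2)) hxn h)
      rw [h2] at h1
      exact (cs_rot hpn ((Finset.erase_subset _ _).trans (hCn T hT)) (hCn J hJ)).mp h1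
  · rintro A' ⟨A, hA, rfl⟩ B' ⟨B, hB, rfl⟩
    exact (cs_rot hpn (hCn A hA) (hCn B hB)).mpr (hC A hA B hB)
  · refine Finset.mem_image.mpr ⟨p, hp, ?_⟩
    simp [rot]
  · obtain ⟨x, hx, hxp⟩ := hne
    refine ⟨rot p n x, Finset.mem_image_of_mem _ hx, ?_⟩
    have hxn : x < n := Finset.mem_range.mp (hCn T hT hx)
    unfold rot
    split_ifs <;> omega

theorem altC_erase {n : ℕ} {T : Finset ℕ} {a b c d x : ℕ} (hab : a < b) (hbc : b < c)
    (hcd : c < d) (hd : d < n)
    (h : (a ∈ T ∧ b ∉ T ∧ c ∈ T ∧ d ∉ T ∧ x ≠ a ∧ x ≠ c) ∨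
      (a ∉ T ∧ b ∈ T ∧ c ∉ T ∧ d ∈ T ∧ x ≠ b ∧ x ≠ d)) : AltC n (T.erase x) := by
  refine ⟨a, b, c, d, hab, hbc, hcd, hd, ?_⟩
  rcases h with ⟨h1, h2, h3, h4, h5, h6⟩ | ⟨h1, h2, h3, h4, h5, h6⟩
  · left
    refine ⟨Finset.mem_erase.mpr ⟨h5.symm, h1⟩, fun h => h2 (Finset.mem_of_mem_erase h),
      Finset.mem_erase.mpr ⟨h6.symm, h3⟩, fun h => h4 (Finset.mem_of_mem_erase h)⟩
  · right
    refine ⟨fun h => h1 (Finset.mem_of_mem_erase h), Finset.mem_erase.mpr ⟨h5.symm, h2⟩,
      fun h => h3 (Finset.mem_of_mem_erase h), Finset.mem_erase.mpr ⟨h6.symm, h4⟩⟩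

/-- At most one element of a non-interval with at least three elements can be essential. -/
theorem exists_safe {n : ℕ} {T : Finset ℕ} (hTn : T ⊆ Finset.range n) (hT : AltC n T)
    (hc3 : 3 ≤ T.card) : ∃ p ∈ T, ∀ x ∈ T, x ≠ p → AltC n (T.erase x) := by
  obtain ⟨a, b, c, d, hab, hbc, hcd, hd, ⟨ha, hb, hc, hd'⟩ | ⟨ha, hb, hc, hd'⟩⟩ := hT
  · obtain ⟨y, hy, hya, hyc⟩ : ∃ y ∈ T, y ≠ a ∧ y ≠ c := by
      by_contra hcon
      push Not at hcon
      have : T ⊆ {a, c} := by
        intro y hy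
        by_cases h : y = a
        · simp [h]
        · simp [hcon y hy h]
      have h1 := Finset.card_le_card this
      have h2 := Finset.card_le_two (a := a) (b := c)
      omega
    have hyn : y < n := Finset.mem_range.mp (hTn hy)
    have hyb : y ≠ b := fun h => hb (h ▸ hy)
    have hyd : y ≠ d := fun h => hd' (h ▸ hy)
    rcases Nat.lt_or_ge y b with h1 | h1
    · refine ⟨c, hc, ?_⟩
      intro x _ hxc
      by_cases hxa : x = a
      · subst hxa
        exact altC_erase (a := y) (b := b) (c := c) (d := d) h1 hbc hcd hd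
          (Or.inl ⟨hy, hb, hc, hd', by omega, hxc⟩)
      · exact altC_erase hab hbc hcd hd (Or.inl ⟨ha, hb, hc, hd', hxa, hxc⟩)
    · rcases Nat.lt_or_ge y d with h2 | h2
      · refine ⟨a, ha, ?_⟩
        intro x _ hxa
        by_cases hxc : x = c
        · subst hxc
          exact altC_erase (a := a) (b := b) (c := y) (d := d) hab (by omega) h2 hd
            (Or.inl ⟨ha, hb, hy, hd', hxa, by omega⟩)
        · exact altC_erase hab hbc hcd hd (Or.inl ⟨ha, hb, hc, hd', hxa, hxc⟩)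
      · refine ⟨c, hc, ?_⟩
        intro x _ hxc
        by_cases hxa : x = a
        · subst hxa
          exact altC_erase (a := b) (b := c) (c := d) (d := y) hbc hcd (by omega) hyn
            (Or.inr ⟨hb, hc, hd', hy, hxc, by omega⟩)
        · exact altC_erase hab hbc hcd hd (Or.inl ⟨ha, hb, hc, hd', hxa, hxc⟩)
  · obtain ⟨y, hy, hyb, hyd⟩ : ∃ y ∈ T, y ≠ b ∧ y ≠ d := by
      by_contra hcon
      push Not at hcon
      have : T ⊆ {b, d} := by
        intro y hy
        by_cases h : y = b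
        · simp [h]
        · simp [hcon y hy h]
      have h1 := Finset.card_le_card this
      have h2 := Finset.card_le_two (a := b) (b := d)
      omega
    have hyn : y < n := Finset.mem_range.mp (hTn hy)
    have hya : y ≠ a := fun h => ha (h ▸ hy)
    have hyc : y ≠ c := fun h => hc (h ▸ hy)
    rcases Nat.lt_or_ge y a with h1 | h1
    · refine ⟨b, hb, ?_⟩
      intro x _ hxb
      by_cases hxd : x = d
      · subst hxd
        exact altC_erase (a := y) (b := a) (c := b) (d := c) h1 hab hbc (by omega)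
          (Or.inl ⟨hy, ha, hb, hc, by omega, hxb⟩)
      · exact altC_erase hab hbc hcd hd (Or.inr ⟨ha, hb, hc, hd', hxb, hxd⟩)
    · rcases Nat.lt_or_ge y c with h2 | h2
      · refine ⟨d, hd', ?_⟩
        intro x _ hxd
        by_cases hxb : x = b
        · subst hxb
          exact altC_erase (a := a) (b := y) (c := c) (d := d) (by omega) h2 hcd hd
            (Or.inr ⟨ha, hy, hc, hd', by omega, hxd⟩)
        · exact altC_erase hab hbc hcd hd (Or.inr ⟨ha, hb, hc, hd', hxb, hxd⟩)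
      · refine ⟨b, hb, ?_⟩
        intro x _ hxb
        by_cases hxd : x = d
        · subst hxd
          exact altC_erase (a := a) (b := b) (c := c) (d := y) hab hbc (by omega) hyn
            (Or.inr ⟨ha, hb, hc, hy, hxb, by omega⟩)
        · exact altC_erase hab hbc hcd hd (Or.inr ⟨ha, hb, hc, hd', hxb, hxd⟩)

theorem cs_of_sdiff_sub {A B : Finset ℕ} {u : ℕ} (h : A \ B ⊆ {u}) : CS A B := by
  rintro ⟨a, b, c, d, hab, hbc, hcd, ⟨ha, -, hc, -⟩ | ⟨-, hb, -, hd⟩⟩
  · have h1 := Finset.mem_singleton.mp (h ha)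
    have h2 := Finset.mem_singleton.mp (h hc)
    omega
  · have h1 := Finset.mem_singleton.mp (h hb)
    have h2 := Finset.mem_singleton.mp (h hd)
    omega

/-- going down one level -/
theorem level_down (hM : TRemCover) (n k : ℕ) (hk : 2 ≤ k) :
    Nonempty (ContinuousMap.HomotopyEquiv (Geo CS (X n k)) (Geo CS (X n k ∪ X n (k + 1)))) := by
  refine hM.use CS (fun a b h => h.symm) CS.refl (X n k) (X n (k + 1))
    (fun T => (T.image (fun x => T.erase x)).filter (fun S => AltC n S)) ?_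
  intro T hT
  obtain ⟨hTn, hTc, hTa⟩ : T ⊆ Finset.range n ∧ T.card = k + 1 ∧ AltC n T := by
    obtain ⟨h1, h2, h3⟩ := Finset.mem_filter.mp hT
    exact ⟨Finset.mem_powerset.mp h1, h2, h3⟩
  refine ⟨?_, ?_, ?_, ?_⟩
  · intro S hS
    obtain ⟨h1, h2⟩ := Finset.mem_filter.mp hS
    obtain ⟨x, hx, rfl⟩ := Finset.mem_image.mp h1
    refine Finset.mem_filter.mpr ⟨Finset.mem_powerset.mpr ((Finset.erase_subset _ _).trans hTn),
      ?_, h2⟩
    rw [Finset.card_erase_of_mem hx, hTc]; rfl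
  · intro S hS
    obtain ⟨h1, h2⟩ := Finset.mem_filter.mp hS
    obtain ⟨x, hx, rfl⟩ := Finset.mem_image.mp h1
    refine cs_of_sdiff_sub (u := x) ?_
    intro y hy
    obtain ⟨h3, h4⟩ := Finset.mem_sdiff.mp hy
    by_contra hcon
    exact h4 (Finset.mem_erase.mpr ⟨fun h => hcon (Finset.mem_singleton.mpr h), h3⟩)
  · intro S hS S' hS'
    obtain ⟨h1, -⟩ := Finset.mem_filter.mp hS
    obtain ⟨x, hx, rfl⟩ := Finset.mem_image.mp h1
    obtain ⟨h1', -⟩ := Finset.mem_filter.mp hS'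
    obtain ⟨x', hx', rfl⟩ := Finset.mem_image.mp h1'
    refine cs_of_sdiff_sub (u := x') ?_
    intro y hy
    obtain ⟨h3, h4⟩ := Finset.mem_sdiff.mp hy
    by_contra hcon
    exact h4 (Finset.mem_erase.mpr ⟨fun h => hcon (Finset.mem_singleton.mpr h),
      Finset.mem_of_mem_erase h3⟩)
  · intro ρ hρ hρc hρT
    have hρn : ∀ A ∈ ρ, A ⊆ Finset.range n := by
      intro A hA
      rcases Finset.mem_union.mp (hρ hA) with h | h
      · exact Finset.mem_powerset.mp (Finset.mem_filter.mp h).1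
      · exact Finset.mem_powerset.mp (Finset.mem_filter.mp h).1
    obtain ⟨p, hp, hpx⟩ := exists_safe hTn hTa (by omega)
    have hne : ∃ x ∈ T, x ≠ p := by
      by_contra hcon
      push Not at hcon
      have : T ⊆ {p} := fun x hx => Finset.mem_singleton.mpr (hcon x hx)
      have := Finset.card_le_card this
      rw [Finset.card_singleton] at this
      omega
    have hc1 : ∀ A ∈ {A | A = T ∨ A ∈ ρ}, A ⊆ Finset.range n := by
      rintro A (rfl | hA)
      · exact hTn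
      · exact hρn A hA
    have hc2 : ∀ A ∈ {A | A = T ∨ A ∈ ρ}, ∀ B ∈ {A | A = T ∨ A ∈ ρ}, CS A B := by
      rintro A (hA | hA) B (hB | hB)
      · rw [hA, hB]; exact CS.refl _
      · rw [hA]; exact hρT B hB
      · rw [hB]; exact (hρT A hA).symm
      · exact hρc A hA B hB
    obtain ⟨x, hx, hxp, hxJ⟩ := exists_free n {A | A = T ∨ A ∈ ρ} hc1 hc2 T (Or.inl rfl) p hp hne
    refine ⟨T.erase x, Finset.mem_filter.mpr ⟨Finset.mem_image_of_mem _ hx, hpx x hx hxp⟩, ?_⟩
    intro A hA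
    exact hxJ A (Or.inr hA)

/-- complement inside `{0,…,n-1}` -/
noncomputable def cmp (n : ℕ) (S : Finset ℕ) : Finset ℕ := Finset.range n \ S

theorem cs_cmp {n : ℕ} {A B : Finset ℕ} (hA : A ⊆ Finset.range n) (hB : B ⊆ Finset.range n) :
    CS (cmp n A) (cmp n B) ↔ CS A B := by
  have h1 : cmp n A \ cmp n B = B \ A := by
    ext x
    simp only [cmp, Finset.mem_sdiff, not_and, not_not]
    constructor
    · rintro ⟨⟨h1, h2⟩, h3⟩; exact ⟨h3 h1, h2⟩
    · rintro ⟨h1, h2⟩; exact ⟨⟨hB h1, h2⟩, fun _ => h1⟩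
  have h2 : cmp n B \ cmp n A = A \ B := by
    ext x
    simp only [cmp, Finset.mem_sdiff, not_and, not_not]
    constructor
    · rintro ⟨⟨h1, h2⟩, h3⟩; exact ⟨h3 h1, h2⟩
    · rintro ⟨h1, h2⟩; exact ⟨⟨hA h1, h2⟩, fun _ => h1⟩
  unfold CS Alt
  rw [h1, h2]
  constructor
  · rintro h ⟨a, b, c, d, h3, h4, h5, h6⟩
    exact h ⟨a, b, c, d, h3, h4, h5, h6.symm⟩
  · rintro h ⟨a, b, c, d, h3, h4, h5, h6⟩
    exact h ⟨a, b, c, d, h3, h4, h5, h6.symm⟩

theorem altC_cmp {n : ℕ} {A : Finset ℕ} (h : AltC n A) : AltC n (cmp n A) := by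
  obtain ⟨a, b, c, d, h1, h2, h3, h4, h5⟩ := h
  have ha : a ∈ Finset.range n := Finset.mem_range.mpr (by omega)
  have hb : b ∈ Finset.range n := Finset.mem_range.mpr (by omega)
  have hc : c ∈ Finset.range n := Finset.mem_range.mpr (by omega)
  have hd : d ∈ Finset.range n := Finset.mem_range.mpr (by omega)
  refine ⟨a, b, c, d, h1, h2, h3, h4, ?_⟩
  simp only [cmp, Finset.mem_sdiff, ha, hb, hc, hd, true_and, not_not]
  exact h5.symm

theorem cmp_cmp {n : ℕ} {A : Finset ℕ} (hA : A ⊆ Finset.range n) : cmp n (cmp n A) = A := by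
  unfold cmp
  exact Finset.sdiff_sdiff_eq_self hA

theorem X_cmp {n k : ℕ} (hk : k ≤ n) : (X n k).image (cmp n) = X n (n - k) := by
  ext S
  constructor
  · intro h
    obtain ⟨A, hA, rfl⟩ := Finset.mem_image.mp h
    obtain ⟨h1, h2, h3⟩ := Finset.mem_filter.mp hA
    have h4 := Finset.mem_powerset.mp h1
    refine Finset.mem_filter.mpr ⟨Finset.mem_powerset.mpr Finset.sdiff_subset, ?_, altC_cmp h3⟩
    unfold cmp
    rw [Finset.card_sdiff_of_subset h4, Finset.card_range, h2]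
  · intro h
    obtain ⟨h1, h2, h3⟩ := Finset.mem_filter.mp h
    have h4 := Finset.mem_powerset.mp h1
    refine Finset.mem_image.mpr ⟨cmp n S, ?_, cmp_cmp h4⟩
    refine Finset.mem_filter.mpr ⟨Finset.mem_powerset.mpr Finset.sdiff_subset, ?_, altC_cmp h3⟩
    unfold cmp
    rw [Finset.card_sdiff_of_subset h4, Finset.card_range, h2]
    omega

theorem X_sub {n k : ℕ} {A : Finset ℕ} (h : A ∈ X n k) : A ⊆ Finset.range n :=
  Finset.mem_powerset.mp (Finset.mem_filter.mp h).1

theorem level_up (hM : TRemCover) (hR : TRelabel) (n k : ℕ) (hkn : k + 3 ≤ n) :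
    Nonempty (ContinuousMap.HomotopyEquiv (Geo CS (X n (k + 1)))
      (Geo CS (X n k ∪ X n (k + 1)))) := by
  have hinj : ∀ W : Finset (Finset ℕ), (∀ A ∈ W, A ⊆ Finset.range n) →
      Set.InjOn (cmp n) (W : Set (Finset ℕ)) := by
    intro W hW A hA B hB hAB
    rw [← cmp_cmp (hW A hA), ← cmp_cmp (hW B hB), hAB]
  have hrel : ∀ W : Finset (Finset ℕ), (∀ A ∈ W, A ⊆ Finset.range n) →
      Nonempty (Geo CS W ≃ₜ Geo CS (W.image (cmp n))) := by
    intro W hW
    exact hR.use CS CS W (cmp n) (hinj W hW)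
      (fun A hA B hB => cs_cmp (hW A hA) (hW B hB))
  obtain ⟨e1⟩ := hrel (X n (k + 1)) (fun A hA => X_sub hA)
  obtain ⟨e2⟩ := hrel (X n k ∪ X n (k + 1)) (fun A hA => by
    rcases Finset.mem_union.mp hA with h | h
    · exact X_sub h
    · exact X_sub h)
  obtain ⟨e3⟩ := level_down hM n (n - (k + 1)) (by omega)
  rw [X_cmp (by omega)] at e1
  rw [Finset.image_union, X_cmp (by omega), X_cmp (by omega)] at e2
  rw [show n - (k + 1) + 1 = n - k by omega] at e3
  rw [Finset.union_comm (X n (n - k))] at e2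
  exact ⟨(e1.toHomotopyEquiv.trans e3).trans e2.symm.toHomotopyEquiv⟩

theorem level_all (hM : TRemCover) (hR : TRelabel) (n : ℕ) :
    ∀ k, 2 ≤ k → k + 2 ≤ n →
      Nonempty (ContinuousMap.HomotopyEquiv (Geo CS (X n k)) (Geo CS (X n 2))) := by
  intro k hk
  induction k, hk using Nat.le_induction with
  | base => intro _; exact ⟨ContinuousMap.HomotopyEquiv.refl _⟩
  | succ k hk ih =>
    intro hkn
    obtain ⟨e1⟩ := ih (by omega)
    obtain ⟨e2⟩ := level_down hM n k hk
    obtain ⟨e3⟩ := level_up hM hR n k (by omega)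
    exact ⟨(e3.trans e2.symm).trans e1⟩

end Pool.Agent.W297.WS
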